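import Mathlib

set_option autoImplicit false

namespace Pool.Agent.Results.MP_d9dcf6_co.Counter

/-- The `j`-th column of `V` as a real vector. -/
def col {n m : ℕ} (V : Matrix (Fin n) (Fin m) ℤ) (j : Fin m) : Fin n → ℝ := fun i => (V i j : ℝ)

/-- The convex cone spanned by the columns indexed by `I`. -/
def cone {n m : ℕ} (V : Matrix (Fin n) (Fin m) ℤ) (I : Finset (Fin m)) : Set (Fin n → ℝ) :=
  {x | ∃ c : Fin m → ℝ, (∀ j, 0 ≤ c j) ∧ x = ∑ j ∈ I, c j • col V j}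

/-- An F-matrix. -/
def IsFMatrix {n m : ℕ} (V : Matrix (Fin n) (Fin m) ℤ) : Prop :=
  (V.map (Int.cast : ℤ → ℝ)).rank = n ∧ (∀ j, col V j ≠ 0) ∧
  (∀ i j, i ≠ j → ∀ t : ℝ, 0 < t → col V i ≠ t • col V j) ∧
  cone V Finset.univ = Set.univ ∧ ∀ j, Finset.univ.gcd (fun i => V i j) = 1

/-- `I` indexes a cone of `𝓜`: `n` linearly independent columns whose cone contains no other
column. -/
def InM {n m : ℕ} (V : Matrix (Fin n) (Fin m) ℤ) (I : Finset (Fin m)) : Prop :=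
  I.card = n ∧ LinearIndepOn ℝ (col V) (I : Set (Fin m)) ∧ ∀ j, col V j ∈ cone V I → j ∈ I

/-- The cone `F` is a facet of the simplicial cone indexed by `J`. -/
def IsFacet {n m : ℕ} (V : Matrix (Fin n) (Fin m) ℤ) (F : Set (Fin n → ℝ))
    (J : Finset (Fin m)) : Prop := ∃ b ∈ J, F = cone V (J.erase b)

/-- A pseudofan: cones of `𝓜`, every column is used, and each facet of a cone `I` is a facet of
exactly one other cone `J`, which lies in the closed half-space, bounded by the span of the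
facet, that does not contain the cone `I`. -/
def IsPseudofan {n m : ℕ} (V : Matrix (Fin n) (Fin m) ℤ) (C : Finset (Finset (Fin m))) : Prop :=
  (∀ I ∈ C, InM V I) ∧ (∀ j, ∃ I ∈ C, j ∈ I) ∧
  ∀ I ∈ C, ∀ a ∈ I, (∃! J, J ∈ C ∧ J ≠ I ∧ IsFacet V (cone V (I.erase a)) J) ∧
    ∀ J ∈ C, J ≠ I → IsFacet V (cone V (I.erase a)) J →
      ∃ φ : (Fin n → ℝ) →ₗ[ℝ] ℝ, (∀ j ∈ I.erase a, φ (col V j) = 0) ∧ 0 < φ (col V a) ∧
        ∀ x ∈ cone V J, φ x ≤ 0

section General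

variable {n m : ℕ} {W : Matrix (Fin n) (Fin m) ℤ} {I J : Finset (Fin m)}

theorem add_mem {x y : Fin n → ℝ} (hx : x ∈ cone W I) (hy : y ∈ cone W I) :
    x + y ∈ cone W I := by
  obtain ⟨c, hc, rfl⟩ := hx
  obtain ⟨d, hd, rfl⟩ := hy
  exact ⟨c + d, fun j => add_nonneg (hc j) (hd j), by simp [add_smul, Finset.sum_add_distrib]⟩

theorem smul_mem {x : Fin n → ℝ} {t : ℝ} (ht : 0 ≤ t) (hx : x ∈ cone W I) :
    t • x ∈ cone W I := by
  obtain ⟨c, hc, rfl⟩ := hx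
  exact ⟨t • c, fun j => mul_nonneg ht (hc j), by simp [Finset.smul_sum, mul_smul]⟩

theorem gen_mem {j : Fin m} (hj : j ∈ I) : col W j ∈ cone W I := by
  refine ⟨fun i => if i = j then 1 else 0, fun i => by positivity, ?_⟩
  simp [ite_smul, hj]

theorem cone_nonneg (φ : (Fin n → ℝ) →ₗ[ℝ] ℝ) (h : ∀ i ∈ I, 0 ≤ φ (col W i)) {x : Fin n → ℝ}
    (hx : x ∈ cone W I) : 0 ≤ φ x := by
  obtain ⟨c, hc, rfl⟩ := hx
  rw [map_sum]
  exact Finset.sum_nonneg fun i hi => by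
    rw [map_smul]
    exact mul_nonneg (hc i) (h i hi)

theorem cone_mono (h : I ⊆ J) : cone W I ⊆ cone W J := by
  rintro _ ⟨c, hc, rfl⟩
  refine ⟨fun i => if i ∈ I then c i else 0, fun i => ?_, ?_⟩
  · dsimp only
    split_ifs <;> simp [hc]
  simp [ite_smul, Finset.sum_ite_mem, Finset.inter_eq_right.2 h]

theorem facet_iff (hI : InM W I) (hJ : InM W J) {a : Fin m} (ha : a ∈ I) :
    IsFacet W (cone W (I.erase a)) J ↔ I.erase a ⊆ J := by
  constructor
  · rintro ⟨b, -, h⟩ j hj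
    exact hJ.2.2 j (cone_mono (Finset.erase_subset b J) (h ▸ gen_mem hj))
  · intro h
    have h1 := Finset.card_erase_of_mem ha
    have h2 := Finset.card_pos.2 ⟨a, ha⟩
    have h3 := hI.1
    have h4 := hJ.1
    obtain ⟨b, hb, hb'⟩ := Finset.exists_mem_notMem_of_card_lt_card
      (s := I.erase a) (t := J) (by omega)
    refine ⟨b, hb, congrArg _ (Finset.eq_of_subset_of_card_le
      (fun j hj => Finset.mem_erase.2 ⟨fun e => hb' (e ▸ hj), h hj⟩) ?_)⟩
    rw [Finset.card_erase_of_mem hb]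
    omega

end General

/-- the three rows of the matrix, packed in base `32` with offset `16` -/
def Vn (r : ℕ) : ℕ :=
  if r = 0 then 1069276857381508736880948988666555689
  else if r = 1 then 1067363716288828865056728012548455124
  else 892532971594926630453774399973023091

def V : Matrix (Fin 3) (Fin 24) ℤ := fun r j => ((Vn r.1 / 32 ^ j.1 % 32 : ℕ) : ℤ) - 16

theorem colv (j : Fin 24) (a b c : ℤ) (h : V 0 j = a ∧ V 1 j = b ∧ V 2 j = c) :
    col V j = ![(a : ℝ), (b : ℝ), (c : ℝ)] := by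
  obtain ⟨rfl, rfl, rfl⟩ := h
  ext i
  fin_cases i <;> rfl

/-- the cones, as bit masks of their three generators -/
def M : List ℕ :=
  [16387, 32771, 16393, 16450, 1081345, 1081346, 25, 16904, 70, 2113600, 1179649, 9437186,
    131089, 536, 16912, 14, 2116, 2105408, 2117632, 1179776, 8389634, 9961472, 131092, 16528,
    1034, 2060, 2113, 8257, 2629632, 2103296, 28672, 1065088, 2228352, 8389696, 8912912,
    1589248, 148, 131332, 1096, 1050632, 10241, 533504, 2622464, 2099216, 6176, 12416, 4218880,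
    2097792, 2490368, 8389184, 8421392, 4718608, 4734976, 164, 292, 133376, 104, 1052680,
    1116160, 10256, 9232, 6292480, 2097424, 4256, 2336, 8832, 12591104, 2097696, 2359552,
    458752, 608, 8397312, 33040, 8552448, 4195344, 4327424, 262184, 266248, 1314816, 4261888,
    5308416, 7340032, 12713984, 3145760, 295168, 229376, 360448, 1310752]

def S (m : ℕ) : Finset (Fin 24) := Finset.univ.filter fun j => m.testBit j.1 = true

theorem mem_S {m : ℕ} {j : Fin 24} : j ∈ S m ↔ m.testBit j.1 = true := by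
  simp [S]

def L : List (Finset (Fin 24)) := M.map S

theorem mem_L {I : Finset (Fin 24)} : I ∈ L ↔ ∃ m ∈ M, S m = I := List.mem_map

theorem S_inj {m k : ℕ} (hm : m < 2 ^ 24) (hk : k < 2 ^ 24) (h : S m = S k) : m = k := by
  refine Nat.eq_of_testBit_eq fun i => ?_
  by_cases hi : i < 24
  · have := Finset.ext_iff.1 h ⟨i, hi⟩
    rw [mem_S, mem_S] at this
    exact Bool.eq_iff_iff.2 this
  · have e : 2 ^ 24 ≤ 2 ^ i := Nat.pow_le_pow_right (by norm_num) (by omega)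
    rw [Nat.testBit_lt_two_pow (hm.trans_le e), Nat.testBit_lt_two_pow (hk.trans_le e)]

theorem sb_iff {m : ℕ} (k : ℕ) (hm : m < 2 ^ 24) (a : Fin 24) :
    m &&& (k ||| 2 ^ a.1) = m ↔ (S m).erase a ⊆ S k := by
  constructor
  · intro h j hj
    rw [Finset.mem_erase, mem_S] at hj
    have h1 := congrArg (fun x => Nat.testBit x j.1) h
    have h2 : ¬ a.1 = j.1 := fun e => hj.1 (Fin.ext e).symm
    simpa [Nat.testBit_and, Nat.testBit_or, Nat.testBit_two_pow, hj.2, h2, mem_S] using h1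
  · intro h
    refine Nat.eq_of_testBit_eq fun i => ?_
    rw [Nat.testBit_and, Nat.testBit_or, Nat.testBit_two_pow]
    cases hb : m.testBit i
    · rfl
    · have hi : i < 24 := by
        by_contra hi
        have e : 2 ^ 24 ≤ 2 ^ i := Nat.pow_le_pow_right (by norm_num) (by omega)
        rw [Nat.testBit_lt_two_pow (hm.trans_le e)] at hb
        exact absurd hb (by simp)
      by_cases e : a.1 = i
      · simp [e]
      · have := mem_S.1 (h (Finset.mem_erase.2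
          ⟨fun e' => e (congrArg Fin.val e').symm, (mem_S (j := ⟨i, hi⟩)).2 hb⟩))
        simpa [e] using this

/-- the determinant of three columns -/
def dz (i p q : Fin 24) : ℤ :=
  V 0 i * (V 1 p * V 2 q - V 2 p * V 1 q) + V 1 i * (V 2 p * V 0 q - V 0 p * V 2 q) +
    V 2 i * (V 0 p * V 1 q - V 1 p * V 0 q)

def phi (p q : Fin 24) : (Fin 3 → ℝ) →ₗ[ℝ] ℝ where
  toFun x := x 0 * (V 1 p * V 2 q - V 2 p * V 1 q) + x 1 * (V 2 p * V 0 q - V 0 p * V 2 q) +
    x 2 * (V 0 p * V 1 q - V 1 p * V 0 q)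
  map_add' x y := by
    simp only [Pi.add_apply]
    ring
  map_smul' t x := by
    simp only [Pi.smul_apply, smul_eq_mul, RingHom.id_apply]
    ring

theorem phi_col (i p q : Fin 24) : phi p q (col V i) = (dz i p q : ℝ) := by
  simp [phi, col, dz]

theorem b1 : ∀ m ∈ M, m < 2 ^ 24 ∧ (S m).card = 3 := by
  decide +kernel

theorem b2 : ∀ m ∈ M, ∀ j : Fin 24, ¬ m.testBit j.1 = true → ∃ p : Fin 24,
    m.testBit p.1 = true ∧ ∃ q : Fin 24, m.testBit q.1 = true ∧ dz j p q < 0 ∧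
      ∀ i : Fin 24, m.testBit i.1 = true → 0 ≤ dz i p q := by
  decide +kernel

theorem b3 : ∀ m ∈ M, ∀ a : Fin 24, m.testBit a.1 = true → ∃ k ∈ M,
    (m &&& (k ||| 2 ^ a.1) = m ∧ k ≠ m) ∧
    (∃ p : Fin 24, m.testBit p.1 = true ∧ ∃ q : Fin 24, m.testBit q.1 = true ∧ 0 < dz a p q ∧
      (∀ i : Fin 24, m.testBit i.1 = true → i ≠ a → dz i p q = 0) ∧
      ∀ i : Fin 24, k.testBit i.1 = true → dz i p q ≤ 0) ∧
    ∀ u ∈ M, m &&& (u ||| 2 ^ a.1) = m → u = m ∨ u = k := by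
  decide +kernel

theorem b4 : ∀ m ∈ M, m = 16387 ∨ ∃ k ∈ M, m &&& k ≠ 0 ∧ k ≠ m ∧
    (∃ a : Fin 24, m.testBit a.1 = true ∧ m &&& (k ||| 2 ^ a.1) = m) ∧
    (∃ a : Fin 24, k.testBit a.1 = true ∧ k &&& (m ||| 2 ^ a.1) = k) ∧
    M.idxOf k < M.idxOf m := by
  decide +kernel

theorem b5 : ∀ j : Fin 24, ∃ m ∈ M, m.testBit j.1 = true := by
  decide +kernel

theorem c1 : ∀ I ∈ L, I.card = 3 := by
  intro I hI
  obtain ⟨m, hm, rfl⟩ := mem_L.1 hI
  exact (b1 m hm).2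

theorem c2 : ∀ I ∈ L, ∀ j, j ∉ I → ∃ p ∈ I, ∃ q ∈ I, dz j p q < 0 ∧ ∀ i ∈ I, 0 ≤ dz i p q := by
  intro I hI
  obtain ⟨m, hm, rfl⟩ := mem_L.1 hI
  simpa only [mem_S] using b2 m hm

theorem c3 : ∀ I ∈ L, ∀ a ∈ I, ∃ J ∈ L, (I.erase a ⊆ J ∧ J ≠ I) ∧
    (∃ p ∈ I, ∃ q ∈ I, 0 < dz a p q ∧ (∀ i ∈ I.erase a, dz i p q = 0) ∧
      ∀ i ∈ J, dz i p q ≤ 0) ∧ ∀ K ∈ L, I.erase a ⊆ K → K = I ∨ K = J := by
  intro I hI a ha
  obtain ⟨m, hm, rfl⟩ := mem_L.1 hI
  obtain ⟨k, hk, ⟨h1, h2⟩, ⟨p, p1, q, q1, h3, h4, h5⟩, h6⟩ := b3 m hm a (mem_S.1 ha)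
  refine ⟨S k, mem_L.2 ⟨k, hk, rfl⟩, ⟨(sb_iff k (b1 m hm).1 a).1 h1,
    fun e => h2 (S_inj (b1 k hk).1 (b1 m hm).1 e)⟩, ⟨p, mem_S.2 p1, q, mem_S.2 q1, h3,
    fun i hi => h4 i (mem_S.1 (Finset.mem_erase.1 hi).2) (Finset.mem_erase.1 hi).1,
    fun i hi => h5 i (mem_S.1 hi)⟩, fun K hK h7 => ?_⟩
  obtain ⟨u, hu, rfl⟩ := mem_L.1 hK
  exact (h6 u hu ((sb_iff u (b1 m hm).1 a).2 h7)).imp (congrArg S) (congrArg S)

theorem inM (I : Finset (Fin 24)) (hI : I ∈ L) : InM V I := by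
  refine ⟨c1 I hI, linearIndepOn_finset_iff.2 fun f hf a ha => ?_, fun j hj => ?_⟩
  · obtain ⟨-, -, -, ⟨p, -, q, -, h1, h2, -⟩, -⟩ := c3 I hI a ha
    have h3 := congrArg (phi p q) hf
    rw [map_sum, map_zero, ← Finset.add_sum_erase I _ ha,
      Finset.sum_eq_zero fun i hi => by simp [phi_col, h2 i hi]] at h3
    have h4 : (dz a p q : ℝ) ≠ 0 := by exact_mod_cast h1.ne'
    simpa [phi_col, h1.ne'] using h3
  · by_contra hn
    obtain ⟨p, -, q, -, h1, h2⟩ := c2 I hI j hn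
    have h3 := cone_nonneg (phi p q) (fun i hi => by
      rw [phi_col]
      exact_mod_cast h2 i hi) hj
    rw [phi_col] at h3
    exact absurd (by exact_mod_cast h3) (not_le.mpr h1)

theorem pseudo : IsPseudofan V L.toFinset := by
  refine ⟨fun I hI => inM I (List.mem_toFinset.1 hI), fun j => ?_, fun I hI a ha => ?_⟩
  · obtain ⟨m, hm, h⟩ := b5 j
    exact ⟨S m, List.mem_toFinset.2 (mem_L.2 ⟨m, hm, rfl⟩), mem_S.2 h⟩
  have hI' := List.mem_toFinset.1 hI
  constructor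
  · obtain ⟨J, h1, ⟨h3, h2⟩, -, h4⟩ := c3 I hI' a ha
    refine ⟨J, ⟨List.mem_toFinset.2 h1, h2, (facet_iff (inM I hI') (inM J h1) ha).2 h3⟩, ?_⟩
    rintro K ⟨p1, p2, p3⟩
    have p4 := List.mem_toFinset.1 p1
    exact (h4 K p4 ((facet_iff (inM I hI') (inM K p4) ha).1 p3)).resolve_left p2
  · intro J hJ h1 h2
    have hJ' := List.mem_toFinset.1 hJ
    obtain ⟨K, -, -, ⟨p, -, q, -, p1, p2, p3⟩, p4⟩ := c3 I hI' a ha
    obtain rfl : J = K :=
      (p4 J hJ' ((facet_iff (inM I hI') (inM J hJ') ha).1 h2)).resolve_left h1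
    refine ⟨phi p q, fun j hj => by simp [phi_col, p2 j hj], by simp [phi_col, p1],
      fun x hx => ?_⟩
    have h3 := cone_nonneg (-phi p q) (fun i hi => by
      have := p3 i hi
      simpa [phi_col] using this) hx
    simpa using h3

theorem minimal (D : Finset (Finset (Fin 24))) (hD : D ⊆ L.toFinset) (h : IsPseudofan V D) :
    D = L.toFinset := by
  have step : ∀ I ∈ D, ∀ J ∈ L, J ≠ I → (∃ a ∈ I, I.erase a ⊆ J) → J ∈ D := by
    rintro I hI J hJ h1 ⟨a, ha, h2⟩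
    have hI' := List.mem_toFinset.1 (hD hI)
    obtain ⟨K, ⟨p1, p2, p3⟩, -⟩ := (h.2.2 I hI a ha).1
    obtain ⟨M, -, hM⟩ := (pseudo.2.2 I (hD hI) a ha).1
    have q1 := hM K ⟨hD p1, p2, p3⟩
    have q2 := hM J ⟨List.mem_toFinset.2 hJ, h1, (facet_iff (inM I hI') (inM J hJ) ha).2 h2⟩
    rw [q2, ← q1]
    exact p1
  have key : ∀ n, ∀ m ∈ M, M.idxOf m < n → (S m ∈ D ↔ S 16387 ∈ D) := by
    intro n
    induction n with
    | zero => exact fun _ _ h => absurd h (Nat.not_lt_zero _)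
    | succ n ih =>
      intro m hm hn
      rcases b4 m hm with rfl | ⟨k, hk, -, h2, ⟨a, a1, a2⟩, ⟨b, b1', b2'⟩, h1⟩
      · exact Iff.rfl
      · rw [← ih k hk (by omega)]
        have h3 : S k ≠ S m := fun e => h2 (S_inj (b1 k hk).1 (b1 m hm).1 e)
        exact ⟨fun p => step _ p _ (mem_L.2 ⟨k, hk, rfl⟩) h3
            ⟨a, mem_S.2 a1, (sb_iff k (b1 m hm).1 a).1 a2⟩,
          fun p => step _ p _ (mem_L.2 ⟨m, hm, rfl⟩) h3.symm
            ⟨b, mem_S.2 b1', (sb_iff m (b1 k hk).1 b).1 b2'⟩⟩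
  obtain ⟨I, hI, -⟩ := h.2.1 0
  obtain ⟨m, hm, rfl⟩ := mem_L.1 (List.mem_toFinset.1 (hD hI))
  have h0 := (key _ m hm (Nat.lt_succ_self _)).1 hI
  refine Finset.Subset.antisymm hD fun J hJ => ?_
  obtain ⟨k, hk, rfl⟩ := mem_L.1 (List.mem_toFinset.1 hJ)
  exact (key _ k hk (Nat.lt_succ_self _)).2 h0

theorem cone_univ : cone V Finset.univ = Set.univ := by
  refine Set.eq_univ_of_forall fun x => ?_
  obtain ⟨a, ha⟩ : ∃ a, a = (-6 * x 0 - 9 * x 1 - 6 * x 2) / 6 := ⟨_, rfl⟩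
  obtain ⟨b, hb⟩ : ∃ b, b = (8 * x 0 + 15 * x 1 + 10 * x 2) / 6 := ⟨_, rfl⟩
  obtain ⟨c, hc⟩ : ∃ c, c = (-22 * x 0 - 36 * x 1 - 26 * x 2) / 6 := ⟨_, rfl⟩
  obtain ⟨t, h0, h1, h2, h3⟩ : ∃ t : ℝ, 0 ≤ t ∧ 0 ≤ a + 3 * t ∧ 0 ≤ b + t ∧ 0 ≤ c + t := by
    have := abs_nonneg a
    have := abs_nonneg b
    have := abs_nonneg c
    have := neg_abs_le a
    have := neg_abs_le b
    have := neg_abs_le c
    exact ⟨|a| + |b| + |c|, by linarith, by linarith, by linarith, by linarith⟩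
  have hx : x = (a + 3 * t) • col V 2 + (b + t) • col V 6 + (c + t) • col V 13 +
      (3 * t) • col V 19 := by
    subst ha hb hc
    rw [colv 2 (-5) (-2) 7 (by decide), colv 6 (-3) 4 (-3) (by decide),
      colv 13 0 2 (-3) (by decide), colv 19 6 0 (-5) (by decide)]
    ext i
    fin_cases i <;> simp <;> ring
  rw [hx]
  exact add_mem (add_mem (add_mem (smul_mem h1 (gen_mem (by simp)))
    (smul_mem h2 (gen_mem (by simp)))) (smul_mem h3 (gen_mem (by simp))))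
    (smul_mem (by linarith) (gen_mem (by simp)))

theorem fmat : IsFMatrix V := by
  refine ⟨?_, fun j h => ?_, fun i j hij t ht h => ?_, cone_univ, by decide +kernel⟩
  · have : LinearMap.range (V.map (Int.cast : ℤ → ℝ)).mulVecLin = ⊤ := by
      rw [LinearMap.range_eq_top]
      intro x
      obtain ⟨c, -, hc⟩ : x ∈ cone V Finset.univ := cone_univ ▸ Set.mem_univ x
      refine ⟨c, ?_⟩
      rw [hc]
      ext i
      simp [Matrix.mulVec, dotProduct, col, mul_comm]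
    rw [Matrix.rank, this]
    simp
  · have h1 : ∀ j, ∃ r, V r j ≠ 0 := by decide +kernel
    obtain ⟨r, hr⟩ := h1 j
    have := congrFun h r
    exact hr (by simpa [col] using this)
  · have h1 : ∀ i j, i ≠ j → ∃ r s, V r i * V s j ≠ V s i * V r j ∨ V r i * V r j < 0 := by
      decide +kernel
    obtain ⟨r, s, h2⟩ := h1 i j hij
    have e1 : (V r i : ℝ) = t * V r j := congrFun h r
    have e2 : (V s i : ℝ) = t * V s j := congrFun h s
    rcases h2 with h2 | h2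
    · refine h2 (Int.cast_injective (α := ℝ) ?_)
      push_cast
      rw [e1, e2]
      ring
    · have h3 : ((V r i * V r j : ℤ) : ℝ) < 0 := by exact_mod_cast h2
      push_cast at h3
      rw [e1] at h3
      nlinarith [mul_self_nonneg (V r j : ℝ)]

theorem int_2 : ![0, 0, 1] ∈ interior (cone V {2, 8, 17}) := by
  refine mem_interior.2 ⟨{x : Fin 3 → ℝ | 0 < (-41 * x 0 + 59 * x 1 + 4 * x 2 : ℝ) ∧
    0 < (35 * x 0 + -70 * x 1 + 5 * x 2 : ℝ) ∧ 0 < (-4 * x 0 + 31 * x 1 + 6 * x 2 : ℝ)}, ?_, ?_, ?_⟩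
  · rintro x ⟨h1, h2, h3⟩
    have hx : x = ((-41 * x 0 + 59 * x 1 + 4 * x 2 : ℝ) / 115) • col V 2 +
        ((35 * x 0 + -70 * x 1 + 5 * x 2 : ℝ) / 115) • col V 8 +
        ((-4 * x 0 + 31 * x 1 + 6 * x 2 : ℝ) / 115) • col V 17 := by
      rw [colv 2 (-5) (-2) (7) (by decide),
        colv 8 (-2) (-2) (9) (by decide),
        colv 17 (5) (3) (7) (by decide)]
      ext i
      fin_cases i <;> simp <;> ring
    rw [hx]
    exact add_mem (add_mem (smul_mem (by positivity) (gen_mem (by decide)))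
      (smul_mem (by positivity) (gen_mem (by decide))))
      (smul_mem (by positivity) (gen_mem (by decide)))
  · refine IsOpen.and ?_ (IsOpen.and ?_ ?_) <;> exact isOpen_lt continuous_const (by fun_prop)
  · simp

theorem int_8 : ![0, 0, 1] ∈ interior (cone V {8, 15, 18}) := by
  refine mem_interior.2 ⟨{x : Fin 3 → ℝ | 0 < (-85 * x 0 + -6 * x 1 + 57 * x 2 : ℝ) ∧
    0 < (55 * x 0 + -37 * x 1 + 4 * x 2 : ℝ) ∧ 0 < (65 * x 0 + 70 * x 1 + 30 * x 2 : ℝ)}, ?_, ?_, ?_⟩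
  · rintro x ⟨h1, h2, h3⟩
    have hx : x = ((-85 * x 0 + -6 * x 1 + 57 * x 2 : ℝ) / 695) • col V 8 +
        ((55 * x 0 + -37 * x 1 + 4 * x 2 : ℝ) / 695) • col V 18 +
        ((65 * x 0 + 70 * x 1 + 30 * x 2 : ℝ) / 695) • col V 15 := by
      rw [colv 8 (-2) (-2) (9) (by decide),
        colv 18 (6) (-9) (8) (by decide),
        colv 15 (3) (5) (5) (by decide)]
      ext i
      fin_cases i <;> simp <;> ring
    rw [hx]
    exact add_mem (add_mem (smul_mem (by positivity) (gen_mem (by decide)))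
      (smul_mem (by positivity) (gen_mem (by decide))))
      (smul_mem (by positivity) (gen_mem (by decide)))
  · refine IsOpen.and ?_ (IsOpen.and ?_ ?_) <;> exact isOpen_lt continuous_const (by fun_prop)
  · simp

/-- A minimal pseudofan of an F-matrix two of whose cones have intersecting interiors. -/
theorem result : ∃ (n m : ℕ) (V : Matrix (Fin n) (Fin m) ℤ) (C : Finset (Finset (Fin m))),
    IsFMatrix V ∧ IsPseudofan V C ∧ (∀ D ⊆ C, IsPseudofan V D → D = C) ∧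
    ∃ I ∈ C, ∃ J ∈ C, cone V I ≠ cone V J ∧
      (interior (cone V I) ∩ interior (cone V J)).Nonempty := by
  have e1 : ({2, 8, 17} : Finset (Fin 24)) ∈ L := mem_L.2 ⟨131332, by decide, by decide⟩
  have e2 : ({8, 15, 18} : Finset (Fin 24)) ∈ L := mem_L.2 ⟨295168, by decide, by decide⟩
  refine ⟨3, 24, V, L.toFinset, fmat, pseudo, minimal, {2, 8, 17}, List.mem_toFinset.2 e1,
    {8, 15, 18}, List.mem_toFinset.2 e2, fun h => ?_, _, int_2, int_8⟩
  have h1 : col V 2 ∈ cone V {8, 15, 18} := h ▸ gen_mem (by decide)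
  exact absurd ((inM _ e2).2.2 2 h1) (by decide)

end Pool.Agent.Results.MP_d9dcf6_co.Counter
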